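import Pool.Agent.H53.VK.Stm2

namespace VK

theorem WLM_aux56 (T : Finset Pt) (e g : Fn) (hg : ∀ z ∈ T, ev g z < 0)
    (hz : ∃ z ∈ T, ev e z < 0) :
    ∃ (f : Fn) (w : Pt), w ∈ T ∧ ev f w = 0 ∧ ev e w ≠ 0 ∧ (∀ z ∈ T, 0 ≤ ev f z) ∧
    (∀ z : Pt, ev e z = 0 → 0 < ev g z → ev f z < 0) := by
  classical
  obtain ⟨z0, hz0, hez0⟩ := hz
  obtain ⟨v, hv, hvm⟩ := T.exists_max_image (fun z => ev g z) ⟨z0, hz0⟩
  obtain ⟨w, hw, hwm⟩ := (T.filter (fun z => ev e z < 0)).exists_min_image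
    (fun z => (ev g v - ev g z) / (-ev e z)) ⟨z0, Finset.mem_filter.2 ⟨hz0, hez0⟩⟩
  rw [Finset.mem_filter] at hw
  obtain ⟨hwT, hew⟩ := hw
  obtain ⟨s, hs⟩ : ∃ s, s = (ev g v - ev g w) / (-ev e w) := ⟨_, rfl⟩
  have hs0 : 0 ≤ s := by
    rw [hs]
    exact div_nonneg (by linarith [hvm w hwT]) (by linarith)
  refine ⟨lin (-1) g s e (ev g v), w, hwT, ?_, hew.ne, ?_, ?_⟩
  · rw [ev_lin, hs]
    have h : ev e w ≠ 0 := hew.ne
    field_simp
    ring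
  · intro z hzT
    rw [ev_lin]
    have h1 := hvm z hzT
    by_cases h : ev e z < 0
    · have h2 := hwm z (Finset.mem_filter.2 ⟨hzT, h⟩)
      rw [← hs, le_div_iff₀ (by linarith)] at h2
      linarith
    · have h3 : 0 ≤ s * ev e z := mul_nonneg hs0 (by linarith)
      linarith
  · intro z hez hgz
    rw [ev_lin, hez, mul_zero]
    have := hg v hv
    linarith

theorem WLM_proved : WLM_stmt := by
  intro T e g hg hz
  obtain ⟨z0, hz0, hez0⟩ := hz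
  rcases lt_or_gt_of_ne hez0 with h | h
  · exact WLM_aux56 T e g hg ⟨z0, hz0, h⟩
  · have he : ∀ z, ev (lin (-1) e 0 e 0) z = -ev e z := fun z => by
      rw [ev_lin]
      ring
    obtain ⟨f, w, h1, h2, h3, h4, h5⟩ := WLM_aux56 T (lin (-1) e 0 e 0) g hg
      ⟨z0, hz0, by rw [he]; linarith⟩
    refine ⟨f, w, h1, h2, ?_, h4, ?_⟩
    · intro h6
      apply h3
      rw [he, h6, neg_zero]
    · intro z hz hgz
      exact h5 z (by rw [he, hz, neg_zero]) hgz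

end VK
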